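import Pool.Agent.H50Dz.Defs

/-!
Base point lemma: after an area preserving linear change of coordinates, a set of bounded density
has, around a suitable point, bounded density at all scales up to a given one.
-/

open MeasureTheory Metric Set

namespace Pool.Agent.H50Dz

/-- the area of a square -/
theorem volume_square (x : ℝ × ℝ) {r : ℝ} (hr : 0 ≤ r) :
    volume (closedBall x r) = ENNReal.ofReal (4 * r ^ 2) := by
  obtain ⟨a, b⟩ := x
  rw [← closedBall_prod_same, Measure.volume_eq_prod, Measure.prod_prod, Real.volume_closedBall,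
    Real.volume_closedBall, ← ENNReal.ofReal_mul (by positivity)]
  congr 1
  ring

/-- the covering argument: if a set `E` of area `4 R ^ 2` is covered by bad squares, the finite
set `F` has many points -/
theorem cover_bound {E : Set (ℝ × ℝ)} {F : Set (ℝ × ℝ)} (hF : F.Finite) {J C R : ℝ}
    (hC : 0 < C)
    (hE : ENNReal.ofReal (4 * R ^ 2) ≤ volume E)
    (hbad : ∀ x ∈ E, ∃ r : ℝ, 1 ≤ r ∧ r ≤ J ∧ C * r ^ 2 < (F ∩ closedBall x r).ncard) :
    4 * R ^ 2 * C ≤ 64 * F.ncard := by
  classical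
  choose! ρ h1 hJ' hb using hbad
  obtain ⟨u, huE, hdis, hcov⟩ :=
    Vitali.exists_disjoint_subfamily_covering_enlargement_closedBall E id ρ J hJ' 4 (by norm_num)
  -- every ball of `u` contains a point of `F`
  have hne : ∀ a ∈ u, (F ∩ closedBall a (ρ a)).Nonempty := by
    intro a ha
    by_contra hcon
    rw [Set.not_nonempty_iff_eq_empty] at hcon
    have h3 := hb a (huE ha)
    rw [hcon, ncard_empty] at h3
    have h2 := h1 a (huE ha)
    have : 0 < C * ρ a ^ 2 := by positivity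
    simp only [Nat.cast_zero] at h3
    linarith
  choose! φ hφ using hne
  have hufin : u.Finite := by
    refine Set.Finite.of_finite_image (f := φ) (hF.subset ?_) ?_
    · rintro _ ⟨a, ha, rfl⟩
      exact (hφ a ha).1
    · intro a ha b hb' hab
      by_contra hne
      have hd := hdis ha hb' hne
      have : Disjoint (closedBall a (ρ a)) (closedBall b (ρ b)) := hd
      exact (Set.disjoint_left.1 this) (hφ a ha).2 (by rw [hab]; exact (hφ b hb').2)
  have hcovE : E ⊆ ⋃ b ∈ hufin.toFinset, closedBall b (4 * ρ b) := by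
    intro x hx
    obtain ⟨b, hbu, hsub⟩ := hcov x hx
    have h0 : 0 ≤ ρ x := by linarith [h1 x hx]
    simp only [Set.mem_iUnion]
    exact ⟨b, by simpa using hbu, hsub (mem_closedBall_self h0)⟩
  have hvol : ENNReal.ofReal (4 * R ^ 2) ≤
      ENNReal.ofReal (∑ b ∈ hufin.toFinset, 4 * (4 * ρ b) ^ 2) := by
    refine hE.trans ((measure_mono hcovE).trans ((measure_biUnion_finset_le _ _).trans ?_))
    rw [ENNReal.ofReal_sum_of_nonneg (fun _ _ => by positivity)]
    refine Finset.sum_le_sum fun b hb => ?_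
    have hbu : b ∈ u := by simpa using hb
    rw [volume_square _ (by linarith [h1 b (huE hbu)])]
  have hnn : 0 ≤ ∑ b ∈ hufin.toFinset, 4 * (4 * ρ b) ^ 2 :=
    Finset.sum_nonneg fun _ _ => by positivity
  have hvol' : 4 * R ^ 2 ≤ ∑ b ∈ hufin.toFinset, 4 * (4 * ρ b) ^ 2 :=
    (ENNReal.ofReal_le_ofReal_iff hnn).1 hvol
  -- counting
  have hcount : (∑ b ∈ hufin.toFinset, ((F ∩ closedBall b (ρ b)).ncard : ℝ)) ≤ F.ncard := by
    have h4 : ∀ b ∈ hufin.toFinset, (F ∩ closedBall b (ρ b)).ncard =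
        (hF.toFinset.filter (· ∈ closedBall b (ρ b))).card := by
      intro b _
      rw [← Set.ncard_coe_finset]
      congr 1
      ext z
      simp
    rw [← Nat.cast_sum, Finset.sum_congr rfl h4, ← Finset.card_biUnion, Nat.cast_le,
      Set.ncard_eq_toFinset_card F hF]
    · refine Finset.card_le_card ?_
      intro z hz
      simp only [Finset.mem_biUnion, Finset.mem_filter] at hz
      obtain ⟨_, _, hz, _⟩ := hz
      exact hz
    · intro a ha b hb' hab
      rw [Function.onFun, Finset.disjoint_left]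
      intro z hz hz'
      simp only [Finset.mem_filter] at hz hz'
      have ha' : a ∈ u := by simpa using ha
      have hb'' : b ∈ u := by simpa using hb'
      have hd : Disjoint (closedBall a (ρ a)) (closedBall b (ρ b)) := hdis ha' hb'' hab
      exact (Set.disjoint_left.1 hd) hz.2 hz'.2
  have hsum : (∑ b ∈ hufin.toFinset, 4 * (4 * ρ b) ^ 2) * C ≤
      64 * ∑ b ∈ hufin.toFinset, ((F ∩ closedBall b (ρ b)).ncard : ℝ) := by
    rw [Finset.sum_mul, Finset.mul_sum]
    refine Finset.sum_le_sum fun b hb' => ?_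
    have hbu : b ∈ u := by simpa using hb'
    have := hb b (huE hbu)
    nlinarith
  calc 4 * R ^ 2 * C ≤ (∑ b ∈ hufin.toFinset, 4 * (4 * ρ b) ^ 2) * C :=
        mul_le_mul_of_nonneg_right hvol' hC.le
    _ ≤ _ := hsum
    _ ≤ 64 * F.ncard := by
        have := hcount
        linarith

/-- the map `(x, y) ↦ (c x, (y - m x) / c)` -/
noncomputable def sh (c m : ℝ) (q : ℝ × ℝ) : ℝ × ℝ := (c * q.1, (q.2 - m * q.1) / c)

theorem volume_sh {c : ℝ} (hc : 0 < c) (m : ℝ) (s : Set (ℝ × ℝ)) :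
    volume (sh c m '' s) = volume s := by
  have h := Measure.addHaar_image_linearMap (volume : Measure (ℝ × ℝ))
    (Matrix.toLin (Module.Basis.finTwoProd ℝ) (Module.Basis.finTwoProd ℝ) !![c, 0; -m / c, 1 / c]) s
  rw [LinearMap.det_toLin, Matrix.det_fin_two_of] at h
  have h1 : c * (1 / c) - 0 * (-m / c) = 1 := by field_simp; ring
  rw [h1, abs_one, ENNReal.ofReal_one, one_mul, Matrix.toLin_finTwoProd] at h
  rw [← h]
  congr 1
  refine Set.image_congr fun q _ => ?_
  simp only [sh, LinearMap.prod_apply, Function.prod]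
  ext
  · simp
  · simp only [LinearMap.add_apply, LinearMap.smul_apply, LinearMap.fst_apply,
      LinearMap.snd_apply, smul_eq_mul]
    ring

theorem dist_le_sh {k : ℝ} (hk : 0 < k) (m : ℝ) (s z : ℝ × ℝ) :
    dist s z ≤ (1 / k + k + |m| / k) * dist (sh k m s) (sh k m z) := by
  have h1 : |(sh k m s).1 - (sh k m z).1| ≤ dist (sh k m s) (sh k m z) := by
    rw [← Real.dist_eq]; exact le_max_left _ _
  have h2 : |(sh k m s).2 - (sh k m z).2| ≤ dist (sh k m s) (sh k m z) := by
    rw [← Real.dist_eq]; exact le_max_right _ _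
  set D := dist (sh k m s) (sh k m z) with hD
  have hD0 : 0 ≤ D := dist_nonneg
  have e1 : s.1 - z.1 = ((sh k m s).1 - (sh k m z).1) / k := by
    simp only [sh]; field_simp
  have e2 : s.2 - z.2 = k * ((sh k m s).2 - (sh k m z).2) +
      m * (((sh k m s).1 - (sh k m z).1) / k) := by
    simp only [sh]; field_simp; ring
  have f1 : |s.1 - z.1| ≤ 1 / k * D := by
    rw [e1, abs_div, abs_of_pos hk, div_eq_mul_one_div, mul_comm]
    exact mul_le_mul_of_nonneg_left h1 (by positivity)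
  have f2 : |s.2 - z.2| ≤ k * D + |m| / k * D := by
    rw [e2]
    refine (abs_add_le _ _).trans ?_
    rw [abs_mul, abs_mul, abs_div, abs_of_pos hk]
    have g1 : k * |(sh k m s).2 - (sh k m z).2| ≤ k * D := mul_le_mul_of_nonneg_left h2 hk.le
    have g2 : |m| * (|(sh k m s).1 - (sh k m z).1| / k) ≤ |m| / k * D := by
      have : |m| * (|(sh k m s).1 - (sh k m z).1| / k) =
          |m| / k * |(sh k m s).1 - (sh k m z).1| := by ring
      rw [this]
      exact mul_le_mul_of_nonneg_left h1 (by positivity)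
    linarith
  rw [Prod.dist_eq, Real.dist_eq, Real.dist_eq]
  have g0 : 0 ≤ k * D := by positivity
  have g1 : 0 ≤ |m| / k * D := by positivity
  have g2 : 0 ≤ 1 / k * D := by positivity
  refine max_le ?_ ?_ <;> nlinarith

theorem exists_base {c : ℝ} (hc : 0 ≤ c) {S : Set (ℝ × ℝ)}
    (hS : ∀ R : ℝ, ∃ r : ℝ, R ≤ r ∧ ∃ z : ℝ × ℝ, (S ∩ closedBall z r).Finite ∧
      ((S ∩ closedBall z r).ncard : ℝ) ≤ c * r ^ 2)
    {k : ℝ} (hk : 0 < k) (m : ℝ) {J : ℝ} (hJ : 1 ≤ J) :
    ∃ x : ℝ × ℝ, ∀ r : ℝ, 1 ≤ r → r ≤ J → (sh k m '' S ∩ closedBall x r).Finite ∧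
      ((sh k m '' S ∩ closedBall x r).ncard : ℝ) ≤ (64 * c + 1) * r ^ 2 := by
  set M := 1 / k + k + |m| / k with hM
  have hM0 : 0 < M := by positivity
  have hMJ : 0 < M * J := by positivity
  obtain ⟨r₀, hr₀, z₀, hfin, hcard⟩ := hS (2 * (M * J + 1))
  obtain ⟨R, rfl⟩ : ∃ R, r₀ = 2 * R := ⟨r₀ / 2, by ring⟩
  have hRJ : M * J + 1 ≤ R := by linarith
  have hR1 : 1 ≤ R := by linarith
  set F := sh k m '' (S ∩ closedBall z₀ (2 * R)) with hF
  have hFfin : F.Finite := hfin.image _
  have hFcard : (F.ncard : ℝ) ≤ 4 * c * R ^ 2 := by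
    have : F.ncard ≤ (S ∩ closedBall z₀ (2 * R)).ncard := ncard_image_le hfin
    calc (F.ncard : ℝ) ≤ ((S ∩ closedBall z₀ (2 * R)).ncard : ℝ) := by exact_mod_cast this
      _ ≤ c * (2 * R) ^ 2 := hcard
      _ = 4 * c * R ^ 2 := by ring
  have key : ∃ x ∈ sh k m '' closedBall z₀ R, ∀ r : ℝ, 1 ≤ r → r ≤ J →
      ((F ∩ closedBall x r).ncard : ℝ) ≤ (64 * c + 1) * r ^ 2 := by
    by_contra hcon
    push Not at hcon
    have := cover_bound (R := R) hFfin (J := J) (C := 64 * c + 1) (by positivity)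
      (E := sh k m '' closedBall z₀ R)
      (by rw [volume_sh hk, volume_square _ (by linarith)]) hcon
    nlinarith
  obtain ⟨x, ⟨z, hz, rfl⟩, hx⟩ := key
  refine ⟨sh k m z, fun r hr1 hrJ => ?_⟩
  have hsub : sh k m '' S ∩ closedBall (sh k m z) r ⊆ F ∩ closedBall (sh k m z) r := by
    rintro _ ⟨⟨s, hs, rfl⟩, hd⟩
    refine ⟨⟨s, ⟨hs, ?_⟩, rfl⟩, hd⟩
    rw [mem_closedBall] at hd hz ⊢
    have h1 := dist_le_sh hk m s z
    have h2 : M * dist (sh k m s) (sh k m z) ≤ M * J :=
      mul_le_mul_of_nonneg_left (hd.trans hrJ) hM0.le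
    have h3 := dist_triangle s z z₀
    linarith
  have hfin2 : (F ∩ closedBall (sh k m z) r).Finite := hFfin.inter_of_left _
  refine ⟨hfin2.subset hsub, ?_⟩
  calc ((sh k m '' S ∩ closedBall (sh k m z) r).ncard : ℝ)
      ≤ ((F ∩ closedBall (sh k m z) r).ncard : ℝ) := by
        exact_mod_cast ncard_le_ncard hsub hfin2
    _ ≤ _ := hx r hr1 hrJ

end Pool.Agent.H50Dz
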