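import Pool.Agent.H50Dz.Defs

/-!
Every bounded convex set of area at least `B` contains, perhaps after exchanging the coordinates,
a parallelogram `Par x₀ y₀ σ l w` with `|σ| ≤ 2`, `w ≤ 2 l` and `l w ≥ B / 256`.

Paper proof. Let `X`, `Y` be the suprema of `|p.1 - q.1|`, `|p.2 - q.2|` over `p, q ∈ K`; by
exchanging coordinates `Y ≤ X` (`X > 0`, as `K` has positive area). Choose `p, q ∈ K` with
`m = q.1 - p.1 ≥ X / 2`, and `σ = (q.2 - p.2) / m`, so `|σ| ≤ Y / (X / 2) ≤ 2`. For `r ∈ K` put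
`v(r) = r.2 - p.2 - σ (r.1 - p.1)`. Some `r ∈ K` has `|v(r)| ≥ B / (8 X)`, otherwise `K` lies in a
parallelogram of area `B / 2`.
The triangle `p q r` is in `K` and contains all points with `p.1 + m/4 ≤ x ≤ q.1 - m/4` and
`y - p.2 - σ (x - p.1) = τ v` with `0 ≤ τ ≤ 1/8`.
So `l = m/2`, `w = |v|/8` (for `v < 0` start at the lower side `y₀ = ... - w`), and
`l w = m |v| / 16 ≥ (X/2) (B/(8X)) / 16 = B / 256`. Finally
`|v| ≤ Y + |σ| X ≤ 3 X ≤ 6 m` so `w ≤ 6 m / 8 ≤ 2 l = m`.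
-/

open MeasureTheory

namespace Pool.Agent.H50Dz

/-- a triangle in a convex set -/
theorem geo_three {K : Set (ℝ × ℝ)} (hK : Convex ℝ K) {p q r : ℝ × ℝ} (hp : p ∈ K) (hq : q ∈ K)
    (hr : r ∈ K) {a b c : ℝ} (ha : 0 ≤ a) (hb : 0 ≤ b) (hc : 0 ≤ c) (h : a + b + c = 1) :
    a • p + b • q + c • r ∈ K := by
  have h1 := hK.sum_mem (t := (Finset.univ : Finset (Fin 3))) (w := ![a, b, c])
    (z := ![p, q, r]) (by
      intro i _
      fin_cases i
      · exact ha
      · exact hb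
      · exact hc) (by
      rw [Fin.sum_univ_three]
      exact h) (by
      intro i _
      fin_cases i
      · exact hp
      · exact hq
      · exact hr)
  rw [Fin.sum_univ_three] at h1
  exact h1

/-- a point far from the line `p q` -/
theorem geo_far {K : Set (ℝ × ℝ)} {B X : ℝ} (hB : 0 < B) (hX : 0 < X)
    (hvol : ENNReal.ofReal B ≤ volume K) (p : ℝ × ℝ) (σ : ℝ)
    (h1 : ∀ r ∈ K, |r.1 - p.1| ≤ X) :
    ∃ r ∈ K, B / (8 * X) ≤ |r.2 - p.2 - σ * (r.1 - p.1)| := by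
  by_contra hcon
  push Not at hcon
  set V := B / (8 * X) with hV
  have hV0 : 0 < V := by positivity
  let f : ℝ → ℝ := fun x => p.2 + σ * (x - p.1) - V
  let g : ℝ → ℝ := fun x => p.2 + σ * (x - p.1) + V
  have hsub : K ⊆ regionBetween f g (Set.Icc (p.1 - X) (p.1 + X)) := by
    intro r hr
    have h2 := h1 r hr
    have h3 := hcon r hr
    rw [abs_le] at h2
    rw [abs_lt] at h3
    refine ⟨⟨by linarith [h2.1], by linarith [h2.2]⟩, ?_, ?_⟩
    · simp only [f]; linarith [h3.1]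
    · simp only [g]; linarith [h3.2]
  have hf : Measurable f := by fun_prop
  have hg : Measurable g := by fun_prop
  have hreg : volume (regionBetween f g (Set.Icc (p.1 - X) (p.1 + X))) =
      ENNReal.ofReal (B / 2) := by
    rw [Measure.volume_eq_prod, volume_regionBetween_eq_lintegral (hf.aemeasurable) (hg.aemeasurable) measurableSet_Icc]
    have h4 : ∀ y : ℝ, ENNReal.ofReal ((g - f) y) = ENNReal.ofReal (2 * V) := by
      intro y
      congr 1
      simp only [Pi.sub_apply, f, g]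
      ring
    simp only [h4]
    rw [lintegral_const, Measure.restrict_apply_univ, Real.volume_Icc,
      ← ENNReal.ofReal_mul (by positivity)]
    congr 1
    rw [hV]
    field_simp
    ring
  have h5 := hvol.trans ((measure_mono hsub).trans hreg.le)
  rw [ENNReal.ofReal_le_ofReal_iff (by positivity)] at h5
  linarith

/-- the case where the horizontal extent is the longest -/
theorem geo_core {K : Set (ℝ × ℝ)} (hK : Convex ℝ K) {B X : ℝ} (hB : 0 < B) (hX : 0 < X)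
    (hvol : ENNReal.ofReal B ≤ volume K) (h1 : ∀ p ∈ K, ∀ q ∈ K, |p.1 - q.1| ≤ X)
    (h2 : ∀ p ∈ K, ∀ q ∈ K, |p.2 - q.2| ≤ X) {p q : ℝ × ℝ} (hp : p ∈ K) (hq : q ∈ K)
    (hpq : X / 2 ≤ q.1 - p.1) :
    ∃ x₀ y₀ σ l w : ℝ, |σ| ≤ 2 ∧ 0 < w ∧ w ≤ 2 * l ∧ B / 256 ≤ l * w ∧ Par x₀ y₀ σ l w ⊆ K := by
  set m := q.1 - p.1 with hm
  have hm0 : 0 < m := by linarith
  set σ := (q.2 - p.2) / m with hσ
  have hσm : σ * m = q.2 - p.2 := by rw [hσ]; field_simp
  have hσ2 : |σ| ≤ 2 := by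
    rw [hσ, abs_div, abs_of_pos hm0, div_le_iff₀ hm0]
    have := h2 q hq p hp
    linarith
  obtain ⟨r, hr, hrv⟩ := geo_far hB hX hvol p σ (fun r hr => h1 r hr p hp)
  set v := r.2 - p.2 - σ * (r.1 - p.1) with hv
  have hv0 : 0 < |v| := lt_of_lt_of_le (by positivity) hrv
  have hvX : |v| ≤ 3 * X := by
    have e1 := h2 r hr p hp
    have e2 := h1 r hr p hp
    calc |v| ≤ |r.2 - p.2| + |σ * (r.1 - p.1)| := abs_sub _ _
      _ ≤ X + 2 * X := by
          rw [abs_mul]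
          have := mul_le_mul hσ2 e2 (abs_nonneg _) (by norm_num)
          linarith
      _ = 3 * X := by ring
  -- all points `(x, y)` with `p.1 + m/4 ≤ x ≤ q.1 - m/4`, `y = p.2 + σ (x - p.1) + τ v`
  have key : ∀ (x τ : ℝ), p.1 + m / 4 ≤ x → x ≤ p.1 + 3 * m / 4 → 0 ≤ τ → τ ≤ 1 / 8 →
      (x, p.2 + σ * (x - p.1) + τ * v) ∈ K := by
    intro x τ hx1 hx2 hτ0 hτ1
    set b := ((x - p.1) - τ * (r.1 - p.1)) / m with hb
    have hbm : b * m = (x - p.1) - τ * (r.1 - p.1) := by rw [hb]; field_simp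
    have e1 : |r.1 - p.1| ≤ X := h1 r hr p hp
    have e2 : |r.1 - q.1| ≤ X := h1 r hr q hq
    rw [abs_le] at e1 e2
    have hb0 : 0 ≤ b := by
      rw [hb]
      refine div_nonneg ?_ hm0.le
      nlinarith
    have ha0 : 0 ≤ 1 - τ - b := by
      have h3 : 0 ≤ (1 - τ - b) * m := by
        have : (1 - τ - b) * m = (q.1 - x) - τ * (q.1 - r.1) := by
          rw [sub_mul, sub_mul, hbm, hm]; ring
        rw [this]
        nlinarith
      exact nonneg_of_mul_nonneg_left h3 hm0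
    have h4 := geo_three hK hp hq hr ha0 hb0 hτ0 (by ring : 1 - τ - b + b + τ = 1)
    have h5 : (1 - τ - b) • p + b • q + τ • r = (x, p.2 + σ * (x - p.1) + τ * v) := by
      ext
      · simp only [Prod.fst_add, Prod.smul_fst, smul_eq_mul]
        have : (1 - τ - b) * p.1 + b * q.1 + τ * r.1 =
            p.1 + b * m + τ * (r.1 - p.1) := by rw [hm]; ring
        rw [this, hbm]
        ring
      · simp only [Prod.snd_add, Prod.smul_snd, smul_eq_mul]
        have : (1 - τ - b) * p.2 + b * q.2 + τ * r.2 =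
            p.2 + b * (q.2 - p.2) + τ * (r.2 - p.2) := by ring
        rw [this, ← hσm, hv]
        linear_combination σ * hbm
    rw [h5] at h4
    exact h4
  have hlw : B / 256 ≤ m / 2 * (|v| / 8) := by
    have h3 : X / 2 * (B / (8 * X)) ≤ m * |v| :=
      mul_le_mul hpq hrv (by positivity) hm0.le
    have h4 : X / 2 * (B / (8 * X)) = B / 16 := by field_simp; ring
    rw [h4] at h3
    linarith
  have hw : |v| / 8 ≤ 2 * (m / 2) := by linarith
  rcases le_or_gt 0 v with hvs | hvs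
  · have habs : |v| = v := abs_of_nonneg hvs
    have hvpos : 0 < v := by rwa [habs] at hv0
    refine ⟨p.1 + m / 4, p.2 + σ * (m / 4), σ, m / 2, |v| / 8, hσ2, by positivity, hw, hlw, ?_⟩
    rintro ⟨x, y⟩ ⟨g1, g2, g3, g4⟩
    simp only at g1 g2 g3 g4
    rw [habs] at g4
    have h6 := key x ((y - p.2 - σ * (x - p.1)) / v) g1 (by linarith)
      (div_nonneg (by linarith) hvpos.le) (by rw [div_le_iff₀ hvpos]; linarith)
    rw [div_mul_cancel₀ _ hvpos.ne'] at h6
    have h7 : p.2 + σ * (x - p.1) + (y - p.2 - σ * (x - p.1)) = y := by ring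
    rwa [h7] at h6
  · have habs : |v| = -v := abs_of_neg hvs
    refine ⟨p.1 + m / 4, p.2 + σ * (m / 4) - |v| / 8, σ, m / 2, |v| / 8, hσ2, by positivity, hw,
      hlw, ?_⟩
    rintro ⟨x, y⟩ ⟨g1, g2, g3, g4⟩
    simp only at g1 g2 g3 g4
    rw [habs] at g3 g4
    have h6 := key x ((y - p.2 - σ * (x - p.1)) / v) g1 (by linarith)
      (div_nonneg_of_nonpos (by linarith) hvs.le) (by rw [div_le_iff_of_neg hvs]; linarith)
    rw [div_mul_cancel₀ _ hvs.ne] at h6
    have h7 : p.2 + σ * (x - p.1) + (y - p.2 - σ * (x - p.1)) = y := by ring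
    rwa [h7] at h6

/-- the extents of a bounded set -/
theorem geo_ext {K : Set (ℝ × ℝ)} (hb : Bornology.IsBounded K) (hne : K.Nonempty)
    (f : ℝ × ℝ → ℝ) (hf : ∀ p q, |f p - f q| ≤ dist p q) :
    ∃ X : ℝ, 0 ≤ X ∧ (∀ p ∈ K, ∀ q ∈ K, |f p - f q| ≤ X) ∧
      (0 < X → ∃ p ∈ K, ∃ q ∈ K, X / 2 ≤ f q - f p) := by
  obtain ⟨C, hC⟩ := Metric.isBounded_iff.1 hb
  let T : Set ℝ := {t | ∃ p ∈ K, ∃ q ∈ K, t = |f p - f q|}
  have hTb : BddAbove T := by
    refine ⟨C, ?_⟩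
    rintro _ ⟨p, hp, q, hq, rfl⟩
    exact (hf p q).trans (hC hp hq)
  obtain ⟨z, hz⟩ := hne
  have hTn : T.Nonempty := ⟨_, z, hz, z, hz, rfl⟩
  refine ⟨sSup T, ?_, ?_, ?_⟩
  · exact le_trans (abs_nonneg _) (le_csSup hTb ⟨z, hz, z, hz, rfl⟩)
  · intro p hp q hq
    exact le_csSup hTb ⟨p, hp, q, hq, rfl⟩
  · intro h0
    obtain ⟨_, ⟨p, hp, q, hq, rfl⟩, ht⟩ := exists_lt_of_lt_csSup hTn (half_lt_self h0)
    rcases le_or_gt 0 (f p - f q) with h | h
    · rw [abs_of_nonneg h] at ht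
      exact ⟨q, hq, p, hp, ht.le⟩
    · rw [abs_of_neg h] at ht
      exact ⟨p, hp, q, hq, by linarith⟩

theorem exists_par {K : Set (ℝ × ℝ)} (hK : Convex ℝ K) (hb : Bornology.IsBounded K) {B : ℝ}
    (hB : 0 < B) (hvol : ENNReal.ofReal B ≤ volume K) :
    ∃ x₀ y₀ σ l w : ℝ, |σ| ≤ 2 ∧ 0 < w ∧ w ≤ 2 * l ∧ B / 256 ≤ l * w ∧
      (Par x₀ y₀ σ l w ⊆ K ∨ Par x₀ y₀ σ l w ⊆ Prod.swap ⁻¹' K) := by
  have hKpos : 0 < volume K := lt_of_lt_of_le (ENNReal.ofReal_pos.2 hB) hvol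
  have hne : K.Nonempty := nonempty_of_measure_ne_zero hKpos.ne'
  obtain ⟨X, hX0, hX1, hX2⟩ := geo_ext hb hne (fun p => p.1) (fun p q => by
    rw [← Real.dist_eq]; exact le_max_left _ _)
  obtain ⟨Y, hY0, hY1, hY2⟩ := geo_ext hb hne (fun p => p.2) (fun p q => by
    rw [← Real.dist_eq]; exact le_max_right _ _)
  have hpos : 0 < X ∨ 0 < Y := by
    by_contra hcon
    push Not at hcon
    have hsub : K.Subsingleton := by
      intro p hp q hq
      have e1 := (hX1 p hp q hq).trans hcon.1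
      have e2 := (hY1 p hp q hq).trans hcon.2
      have f1 : p.1 - q.1 = 0 := abs_eq_zero.1 (le_antisymm e1 (abs_nonneg _))
      have f2 : p.2 - q.2 = 0 := abs_eq_zero.1 (le_antisymm e2 (abs_nonneg _))
      ext
      · linarith
      · linarith
    rw [hsub.measure_zero] at hKpos
    exact lt_irrefl _ hKpos
  rcases le_total Y X with hYX | hXY
  · have hXpos : 0 < X := by
      rcases hpos with h | h
      · exact h
      · linarith
    obtain ⟨p, hp, q, hq, hpq⟩ := hX2 hXpos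
    obtain ⟨x₀, y₀, σ, l, w, h1, h2, h3, h4, h5⟩ := geo_core hK hB hXpos hvol hX1
      (fun p hp q hq => (hY1 p hp q hq).trans hYX) hp hq hpq
    exact ⟨x₀, y₀, σ, l, w, h1, h2, h3, h4, Or.inl h5⟩
  · have hYpos : 0 < Y := by
      rcases hpos with h | h
      · linarith
      · exact h
    obtain ⟨p, hp, q, hq, hpq⟩ := hY2 hYpos
    have hK' : Convex ℝ (Prod.swap ⁻¹' K : Set (ℝ × ℝ)) := by
      intro a ha b hb' s t hs ht hst
      exact hK ha hb' hs ht hst
    have hvol' : ENNReal.ofReal B ≤ volume (Prod.swap ⁻¹' K : Set (ℝ × ℝ)) := by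
      have h6 : volume ((MeasurableEquiv.prodComm : ℝ × ℝ ≃ᵐ ℝ × ℝ) ⁻¹' K) = volume K :=
        (Measure.measurePreserving_swap (μ := (volume : Measure ℝ))
          (ν := (volume : Measure ℝ))).measure_preimage_equiv K
      have h7 : ((MeasurableEquiv.prodComm : ℝ × ℝ ≃ᵐ ℝ × ℝ) ⁻¹' K) =
          (Prod.swap ⁻¹' K : Set (ℝ × ℝ)) := rfl
      rw [← h7, h6]
      exact hvol
    obtain ⟨x₀, y₀, σ, l, w, h1, h2, h3, h4, h5⟩ := geo_core (K := Prod.swap ⁻¹' K) hK' hB hYpos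
      hvol' (fun p hp q hq => hY1 p.swap hp q.swap hq)
      (fun p hp q hq => (hX1 p.swap hp q.swap hq).trans hXY)
      (p := p.swap) (q := q.swap) (by simpa using hp) (by simpa using hq) (by simpa using hpq)
    exact ⟨x₀, y₀, σ, l, w, h1, h2, h3, h4, Or.inr h5⟩

end Pool.Agent.H50Dz
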