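import Pool.Agent.H50Dz.Defs

/-!
Limits of point sets along an ultrafilter.

Paper proof. `ω := Filter.hyperfilter ℕ`,
`S' = {p | ∀ ε > 0, ∀ᶠ N in ω, ∃ q ∈ S N, dist p q < ε}`. If `T` is a finite subset of
`S' ∩ closedBall 0 r`, take `0 < ε ≤ 1/2` with `2 ε <` all distances of two points of `T`: for
some `N ≥ r + 1` every `p ∈ T` has a `q ∈ S N` with `dist p q < ε`; they are distinct and in
`closedBall 0 (r + 1)`, so `#T ≤ C (r + 1)^2 ≤ 4 C r^2`. If the compact set `P` meets `S N` for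
all large `N`, choose `q N ∈ S N ∩ P`; the image of `ω` under `q` converges to a point of `P`
(`IsCompact.ultrafilter_le_nhds`), which is in `S'`.
-/

open Filter Metric

namespace Pool.Agent.H50Dz

/-- a finite set is uniformly separated -/
theorem lim_sep (T : Finset (ℝ × ℝ)) :
    ∃ δ : ℝ, 0 < δ ∧ δ ≤ 1 ∧ ∀ p ∈ T, ∀ q ∈ T, p ≠ q → δ ≤ dist p q := by
  classical
  by_cases h : T.offDiag.Nonempty
  · obtain ⟨z, hz, hmin⟩ := T.offDiag.exists_min_image (fun x => dist x.1 x.2) h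
    rw [Finset.mem_offDiag] at hz
    refine ⟨min (dist z.1 z.2) 1, lt_min (dist_pos.2 hz.2.2) one_pos, min_le_right _ _, ?_⟩
    intro p hp q hq hpq
    exact (min_le_left _ _).trans (hmin (p, q) (Finset.mem_offDiag.2 ⟨hp, hq, hpq⟩))
  · refine ⟨1, one_pos, le_refl _, ?_⟩
    intro p hp q hq hpq
    exact absurd ⟨(p, q), Finset.mem_offDiag.2 ⟨hp, hq, hpq⟩⟩ h

/-- the limit of the sets `S N` along the hyperfilter -/
def limSet (S : ℕ → Set (ℝ × ℝ)) : Set (ℝ × ℝ) :=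
  {p | ∀ ε : ℝ, 0 < ε → ∀ᶠ N in (hyperfilter ℕ : Filter ℕ), ∃ q ∈ S N, dist p q < ε}

theorem lim_le_atTop : (hyperfilter ℕ : Filter ℕ) ≤ atTop := by
  rw [← Nat.cofinite_eq_atTop]
  exact hyperfilter_le_cofinite

theorem lim_card {C : ℝ} {S : ℕ → Set (ℝ × ℝ)}
    (hS : ∀ (N : ℕ) (r : ℝ), 1 ≤ r → r ≤ N →
      (S N ∩ closedBall 0 r).Finite ∧ ((S N ∩ closedBall 0 r).ncard : ℝ) ≤ C * r ^ 2)
    {r : ℝ} (hr : 1 ≤ r) (T : Finset (ℝ × ℝ)) (hT : ∀ p ∈ T, p ∈ limSet S ∩ closedBall 0 r) :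
    (T.card : ℝ) ≤ 4 * C * r ^ 2 := by
  classical
  have hC : 0 ≤ C := by
    have h1 := (hS 1 1 le_rfl (by norm_num)).2
    have h2 : (0 : ℝ) ≤ ((S 1 ∩ closedBall 0 1).ncard : ℝ) := Nat.cast_nonneg _
    linarith
  obtain ⟨δ, hδ0, hδ1, hδ⟩ := lim_sep T
  have e1 : ∀ᶠ N in (hyperfilter ℕ : Filter ℕ), ∀ p ∈ T, ∃ q ∈ S N, dist p q < δ / 2 := by
    rw [eventually_all_finset]
    intro p hp
    exact (hT p hp).1 (δ / 2) (by linarith)
  have e2 : ∀ᶠ N : ℕ in (hyperfilter ℕ : Filter ℕ), r + 1 ≤ (N : ℝ) :=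
    lim_le_atTop (tendsto_natCast_atTop_atTop.eventually_ge_atTop (r + 1))
  obtain ⟨N, h1, h2⟩ := (e1.and e2).exists
  choose! φ hφS hφd using h1
  have hinj : Set.InjOn φ T := by
    intro p hp q hq hpq
    by_contra hne
    have h3 := hδ p hp q hq hne
    have h4 := hφd p hp
    have h5 := hφd q hq
    have h6 : dist p q ≤ dist p (φ p) + dist (φ p) q := dist_triangle _ _ _
    rw [hpq, dist_comm (φ q) q] at h6
    rw [hpq] at h4
    linarith
  obtain ⟨hfin, hcard⟩ := hS N (r + 1) (by linarith) h2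
  have hsub : ((T.image φ : Finset (ℝ × ℝ)) : Set (ℝ × ℝ)) ⊆ S N ∩ closedBall 0 (r + 1) := by
    intro z hz
    rw [Finset.coe_image] at hz
    obtain ⟨p, hp, rfl⟩ := hz
    have hp' : p ∈ T := hp
    refine ⟨hφS p hp', ?_⟩
    rw [mem_closedBall]
    have h3 : dist p 0 ≤ r := (hT p hp').2
    have h4 := hφd p hp'
    have h5 := dist_triangle (φ p) p 0
    rw [dist_comm (φ p) p] at h5
    linarith
  have h7 : T.card ≤ (S N ∩ closedBall 0 (r + 1)).ncard := by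
    rw [← Finset.card_image_of_injOn hinj, ← Set.ncard_coe_finset]
    exact Set.ncard_le_ncard hsub hfin
  calc (T.card : ℝ) ≤ ((S N ∩ closedBall 0 (r + 1)).ncard : ℝ) := by exact_mod_cast h7
    _ ≤ C * (r + 1) ^ 2 := hcard
    _ ≤ C * (2 * r) ^ 2 := by
        apply mul_le_mul_of_nonneg_left _ hC
        exact pow_le_pow_left₀ (by linarith) (by linarith) 2
    _ = 4 * C * r ^ 2 := by ring

theorem exists_limit (C : ℝ) (S : ℕ → Set (ℝ × ℝ))
    (hS : ∀ (N : ℕ) (r : ℝ), 1 ≤ r → r ≤ N →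
      (S N ∩ closedBall 0 r).Finite ∧ ((S N ∩ closedBall 0 r).ncard : ℝ) ≤ C * r ^ 2) :
    ∃ S' : Set (ℝ × ℝ),
      (∀ r : ℝ, 1 ≤ r → (S' ∩ closedBall 0 r).Finite ∧
        ((S' ∩ closedBall 0 r).ncard : ℝ) ≤ 4 * C * r ^ 2) ∧
      ∀ P : Set (ℝ × ℝ), IsCompact P → (∀ᶠ N in atTop, (S N ∩ P).Nonempty) →
        (S' ∩ P).Nonempty := by
  classical
  refine ⟨limSet S, ?_, ?_⟩
  · intro r hr
    have hfin : (limSet S ∩ closedBall 0 r).Finite := by
      by_contra hcon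
      obtain ⟨n, hn⟩ := exists_nat_gt (4 * C * r ^ 2)
      obtain ⟨T, hTsub, hTcard⟩ := Set.Infinite.exists_subset_card_eq hcon n
      have := lim_card hS hr T (fun p hp => hTsub hp)
      rw [hTcard] at this
      linarith
    refine ⟨hfin, ?_⟩
    have h1 := lim_card hS hr hfin.toFinset (fun p hp => hfin.mem_toFinset.1 hp)
    rwa [← Set.ncard_eq_toFinset_card _ hfin] at h1
  · intro P hP hev
    have hω : ∀ᶠ N in (hyperfilter ℕ : Filter ℕ), (S N ∩ P).Nonempty := lim_le_atTop hev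
    have hex : ∃ q : ℕ → ℝ × ℝ, ∀ N, (S N ∩ P).Nonempty → q N ∈ S N ∩ P := by
      refine ⟨fun N => if h : (S N ∩ P).Nonempty then h.some else 0, ?_⟩
      intro N h
      simp only [dif_pos h]
      exact h.some_mem
    obtain ⟨q, hq⟩ := hex
    have hqω : ∀ᶠ N in (hyperfilter ℕ : Filter ℕ), q N ∈ S N ∩ P := hω.mono hq
    have hle : ((hyperfilter ℕ).map q : Filter (ℝ × ℝ)) ≤ 𝓟 P := by
      rw [le_principal_iff]
      exact hqω.mono fun N h => h.2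
    obtain ⟨x, hxP, hx⟩ := hP.ultrafilter_le_nhds ((hyperfilter ℕ).map q) hle
    refine ⟨x, ?_, hxP⟩
    intro ε hε
    have h1 : ∀ᶠ N in (hyperfilter ℕ : Filter ℕ), q N ∈ ball x ε := hx (ball_mem_nhds x hε)
    filter_upwards [h1, hqω] with N h2 h3
    refine ⟨q N, h3.1, ?_⟩
    rw [dist_comm]
    exact h2

end Pool.Agent.H50Dz
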