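import Pool.Agent.H50Dz.Defs

/-!
Transfer between `EuclideanSpace ℝ (Fin 2)` and `ℝ × ℝ`.
-/

open MeasureTheory Metric Set

namespace Pool.Agent.H50Dz

/-- coordinates -/
noncomputable def eqv : EuclideanSpace ℝ (Fin 2) ≃ᵐ ℝ × ℝ :=
  (MeasurableEquiv.toLp 2 (Fin 2 → ℝ)).symm.trans MeasurableEquiv.finTwoArrow

theorem eqv_apply (p : EuclideanSpace ℝ (Fin 2)) : eqv p = (p 0, p 1) := rfl

theorem eqv_symm_zero (q : ℝ × ℝ) : eqv.symm q 0 = q.1 := by
  have := eqv.apply_symm_apply q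
  rw [eqv_apply] at this
  exact congrArg Prod.fst this

theorem eqv_symm_one (q : ℝ × ℝ) : eqv.symm q 1 = q.2 := by
  have := eqv.apply_symm_apply q
  rw [eqv_apply] at this
  exact congrArg Prod.snd this

theorem eqv_pres : MeasurePreserving eqv :=
  (volume_preserving_finTwoArrow ℝ).comp
    (EuclideanSpace.volume_preserving_symm_measurableEquiv_toLp (Fin 2))

theorem volume_preimage_symm (K : Set (EuclideanSpace ℝ (Fin 2))) :
    volume (eqv.symm ⁻¹' K) = volume K :=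
  eqv_pres.symm.measure_preimage_equiv K

theorem volume_preimage (K : Set (ℝ × ℝ)) : volume (eqv ⁻¹' K) = volume K :=
  eqv_pres.measure_preimage_equiv K

theorem norm_eqv_le (p : EuclideanSpace ℝ (Fin 2)) : ‖eqv p‖ ≤ ‖p‖ := by
  rw [eqv_apply, Prod.norm_def]
  exact max_le (PiLp.norm_apply_le p 0) (PiLp.norm_apply_le p 1)

theorem norm_le_eqv (p : EuclideanSpace ℝ (Fin 2)) : ‖p‖ ≤ 2 * ‖eqv p‖ := by
  have h0 : |p 0| ≤ ‖eqv p‖ := by rw [eqv_apply, Prod.norm_def]; exact le_max_left _ _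
  have h1 : |p 1| ≤ ‖eqv p‖ := by rw [eqv_apply, Prod.norm_def]; exact le_max_right _ _
  rw [EuclideanSpace.norm_eq, Fin.sum_univ_two, Real.sqrt_le_left (by positivity)]
  have e0 : ‖p 0‖ ^ 2 ≤ ‖eqv p‖ ^ 2 := pow_le_pow_left₀ (norm_nonneg _) h0 2
  have e1 : ‖p 1‖ ^ 2 ≤ ‖eqv p‖ ^ 2 := pow_le_pow_left₀ (norm_nonneg _) h1 2
  nlinarith [norm_nonneg (eqv p)]

/-- linear combinations -/
theorem eqv_symm_comb (a b : ℝ) (x y : ℝ × ℝ) :
    eqv.symm (a • x + b • y) = a • eqv.symm x + b • eqv.symm y := by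
  ext i
  fin_cases i
  · show eqv.symm (a • x + b • y) 0 = _
    rw [eqv_symm_zero]
    show _ = a * eqv.symm x 0 + b * eqv.symm y 0
    rw [eqv_symm_zero, eqv_symm_zero]
    rfl
  · show eqv.symm (a • x + b • y) 1 = _
    rw [eqv_symm_one]
    show _ = a * eqv.symm x 1 + b * eqv.symm y 1
    rw [eqv_symm_one, eqv_symm_one]
    rfl

theorem convex_preimage_symm {K : Set (EuclideanSpace ℝ (Fin 2))} (hK : Convex ℝ K) :
    Convex ℝ (eqv.symm ⁻¹' K) := by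
  intro x hx y hy a b ha hb hab
  show eqv.symm (a • x + b • y) ∈ K
  rw [eqv_symm_comb]
  exact hK hx hy ha hb hab

theorem bounded_preimage_symm {K : Set (EuclideanSpace ℝ (Fin 2))}
    (hK : Bornology.IsBounded K) : Bornology.IsBounded (eqv.symm ⁻¹' K) := by
  obtain ⟨C, hC⟩ := hK.exists_norm_le
  refine isBounded_iff_forall_norm_le.2 ⟨C, fun x hx => ?_⟩
  have h := norm_eqv_le (eqv.symm x)
  rw [eqv.apply_symm_apply] at h
  exact h.trans (hC _ hx)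

/-- bounded density in square form, for subsets of `ℝ × ℝ` -/
def SqDensity (c : ℝ) (T : Set (ℝ × ℝ)) : Prop :=
  ∀ r : ℝ, 1 ≤ r → (T ∩ closedBall 0 r).Finite ∧ ((T ∩ closedBall 0 r).ncard : ℝ) ≤ c * r ^ 2

theorem sq_of_sparse {c : ℝ} {S : Set (EuclideanSpace ℝ (Fin 2))} (hS : Sparse c S) :
    ∀ R : ℝ, ∃ r : ℝ, R ≤ r ∧ ∃ z : ℝ × ℝ, (eqv '' S ∩ closedBall z r).Finite ∧
      ((eqv '' S ∩ closedBall z r).ncard : ℝ) ≤ 4 * c * r ^ 2 := by
  intro R
  obtain ⟨r, hr, x, h1, h2⟩ := hS (2 * R)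
  refine ⟨r / 2, by linarith, eqv x, ?_⟩
  have hsub : eqv '' S ∩ closedBall (eqv x) (r / 2) ⊆ eqv '' (S ∩ closedBall x r) := by
    rintro _ ⟨⟨p, hp, rfl⟩, hz⟩
    refine ⟨p, ⟨hp, ?_⟩, rfl⟩
    rw [mem_closedBall, dist_eq_norm] at hz ⊢
    have h3 := norm_le_eqv (p - x)
    have h4 : eqv (p - x) = eqv p - eqv x := rfl
    rw [h4] at h3
    linarith
  have hfin : (eqv '' (S ∩ closedBall x r)).Finite := h1.image _
  refine ⟨hfin.subset hsub, ?_⟩
  calc ((eqv '' S ∩ closedBall (eqv x) (r / 2)).ncard : ℝ)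
      ≤ ((eqv '' (S ∩ closedBall x r)).ncard : ℝ) := by
        exact_mod_cast ncard_le_ncard hsub hfin
    _ ≤ ((S ∩ closedBall x r).ncard : ℝ) := by exact_mod_cast ncard_image_le h1
    _ ≤ c * r ^ 2 := h2
    _ = 4 * c * (r / 2) ^ 2 := by ring

theorem Sparse.mono {c c' : ℝ} (h : c ≤ c') {S : Set (EuclideanSpace ℝ (Fin 2))}
    (hS : Sparse c S) : Sparse c' S := by
  intro R
  obtain ⟨r, hr, x, h1, h2⟩ := hS R
  exact ⟨r, hr, x, h1, h2.trans (mul_le_mul_of_nonneg_right h (sq_nonneg r))⟩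

theorem BoundedDensity.sparse {S : Set (EuclideanSpace ℝ (Fin 2))} (hS : BoundedDensity S) :
    ∃ c : ℝ, Sparse c S := by
  obtain ⟨c, hc⟩ := hS
  refine ⟨c, fun R => ⟨max R 1, le_max_left _ _, 0, ?_⟩⟩
  exact hc (max R 1) (le_max_right _ _)

theorem bounded_of_sqDensity {c : ℝ} {T : Set (ℝ × ℝ)} (hT : SqDensity c T) :
    BoundedDensity (eqv ⁻¹' (T ∪ Prod.swap ⁻¹' T)) := by
  refine ⟨2 * c, fun r hr => ?_⟩
  obtain ⟨h1, h2⟩ := hT r hr
  have hsub : eqv ⁻¹' (T ∪ Prod.swap ⁻¹' T) ∩ closedBall 0 r ⊆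
      eqv.symm '' (T ∩ closedBall 0 r) ∪ (fun q => eqv.symm q.swap) '' (T ∩ closedBall 0 r) := by
    rintro p ⟨hp, hz⟩
    rw [mem_closedBall_zero_iff] at hz
    have hz' : ‖eqv p‖ ≤ r := (norm_eqv_le p).trans hz
    rcases hp with hp | hp
    · left
      exact ⟨eqv p, ⟨hp, by rw [mem_closedBall_zero_iff]; exact hz'⟩, eqv.symm_apply_apply p⟩
    · right
      refine ⟨(eqv p).swap, ⟨hp, ?_⟩, ?_⟩
      · rw [mem_closedBall_zero_iff, Prod.norm_def]
        rw [Prod.norm_def] at hz'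
        simpa [max_comm] using hz'
      · show eqv.symm ((eqv p).swap).swap = p
        rw [Prod.swap_swap]
        exact eqv.symm_apply_apply p
  have hfin : (eqv.symm '' (T ∩ closedBall 0 r) ∪
      (fun q => eqv.symm q.swap) '' (T ∩ closedBall 0 r)).Finite :=
    (h1.image _).union (h1.image _)
  refine ⟨hfin.subset hsub, ?_⟩
  have a1 : (eqv.symm '' (T ∩ closedBall 0 r)).ncard ≤ (T ∩ closedBall 0 r).ncard :=
    ncard_image_le h1
  have a2 : ((fun q => eqv.symm q.swap) '' (T ∩ closedBall 0 r)).ncard ≤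
      (T ∩ closedBall 0 r).ncard := ncard_image_le h1
  have a3 := ncard_union_le (eqv.symm '' (T ∩ closedBall 0 r))
    ((fun q => eqv.symm q.swap) '' (T ∩ closedBall 0 r))
  have a4 := ncard_le_ncard hsub hfin
  have a5 : (eqv ⁻¹' (T ∪ Prod.swap ⁻¹' T) ∩ closedBall 0 r).ncard ≤
      2 * (T ∩ closedBall 0 r).ncard := by omega
  calc ((eqv ⁻¹' (T ∪ Prod.swap ⁻¹' T) ∩ closedBall 0 r).ncard : ℝ)
      ≤ ((2 * (T ∩ closedBall 0 r).ncard : ℕ) : ℝ) := by exact_mod_cast a5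
    _ = 2 * ((T ∩ closedBall 0 r).ncard : ℝ) := by push_cast; ring
    _ ≤ 2 * c * r ^ 2 := by linarith

end Pool.Agent.H50Dz
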