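import Pool.Agent.H50Dz.Renorm
import Pool.Agent.H50Dz.Transfer
import Pool.Agent.H50Dz.Geo
import Pool.Agent.H50Dz.Limit

/-!
If sparse sets are not missed uniformly, there is a set of bounded density meeting every bounded
convex set of large area.
-/

open MeasureTheory Metric Set Filter

namespace Pool.Agent.H50Dz

theorem isCompact_par (x₀ y₀ σ l w : ℝ) : IsCompact (Par x₀ y₀ σ l w) := by
  refine IsCompact.of_isClosed_subset
    (isCompact_Icc (a := ((x₀, y₀ - |σ| * |l|) : ℝ × ℝ)) (b := (x₀ + l, y₀ + |σ| * |l| + w))) ?_ ?_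
  · have e : Par x₀ y₀ σ l w = {q : ℝ × ℝ | x₀ ≤ q.1} ∩ {q : ℝ × ℝ | q.1 ≤ x₀ + l} ∩
        {q : ℝ × ℝ | y₀ + σ * (q.1 - x₀) ≤ q.2} ∩
        {q : ℝ × ℝ | q.2 ≤ y₀ + σ * (q.1 - x₀) + w} := by
      ext q
      simp only [Par, mem_ofPred_eq, mem_inter_iff]
      tauto
    rw [e]
    refine (((isClosed_le ?_ ?_).inter (isClosed_le ?_ ?_)).inter (isClosed_le ?_ ?_)).inter
      (isClosed_le ?_ ?_) <;> fun_prop
  · rintro q ⟨h1, h2, h3, h4⟩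
    have h5 : |σ * (q.1 - x₀)| ≤ |σ| * |l| := by
      rw [abs_mul]
      refine mul_le_mul_of_nonneg_left ?_ (abs_nonneg _)
      rw [abs_of_nonneg (by linarith)]
      exact le_trans (by linarith) (le_abs_self l)
    have h6 := abs_le.1 h5
    refine ⟨⟨h1, ?_⟩, ⟨h2, ?_⟩⟩
    · show y₀ - |σ| * |l| ≤ q.2
      linarith
    · show q.2 ≤ y₀ + |σ| * |l| + w
      linarith

/-- hitting rectangles gives points in parallelograms -/
theorem hit_par {S : Set (EuclideanSpace ℝ (Fin 2))} {A t N D : ℝ} (hD : 0 < D)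
    (ht : ∀ (p : EuclideanSpace ℝ (Fin 2)) (L W : ℝ), 0 < W → W ≤ L →
      A ≤ (1 + t ^ 2) * L * W → 1 ≤ D * L ^ 2 → D * L ^ 2 ≤ N → (Rect p t L W ∩ S).Nonempty)
    {x₀ y₀ l w : ℝ} (hw : 0 < w) (hwl : 4 * w ≤ l) (hlw : 2 * A ≤ l * w)
    (hD1 : 2 ≤ D * l ^ 2) (hDN : D * l ^ 2 ≤ N) :
    (Par x₀ y₀ t l w ∩ eqv '' S).Nonempty := by
  have ht2 : 0 < 1 + t ^ 2 := by positivity
  have hW : w / (1 + t ^ 2) ≤ w := div_le_self hw.le (by nlinarith [sq_nonneg t])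
  have hL1 : (3 / 4 * l) ^ 2 ≤ (l - w) ^ 2 := pow_le_pow_left₀ (by linarith) (by linarith) 2
  have hL2 : (l - w) ^ 2 ≤ l ^ 2 := pow_le_pow_left₀ (by linarith) (by linarith) 2
  obtain ⟨q, ⟨a, b, ha0, haL, hb0, hbW, hq0, hq1⟩, hqS⟩ :=
    ht (eqv.symm (x₀ + w / 2, y₀ + t * w / 2)) (l - w) (w / (1 + t ^ 2)) (by positivity)
      (by linarith)
      (by
        have : (1 + t ^ 2) * (l - w) * (w / (1 + t ^ 2)) = (l - w) * w := by field_simp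
        rw [this]
        nlinarith)
      (by nlinarith [mul_le_mul_of_nonneg_left hL1 hD.le])
      (by nlinarith [mul_le_mul_of_nonneg_left hL2 hD.le])
  rw [eqv_symm_zero] at hq0
  rw [eqv_symm_one] at hq1
  simp only at hq0 hq1
  refine ⟨eqv q, ?_, mem_image_of_mem _ hqS⟩
  rw [le_div_iff₀ ht2] at hbW
  have hbt : |b * t| ≤ w / 2 := by
    rw [abs_mul, abs_of_nonneg hb0]
    have h1 : 2 * |t| ≤ 1 + t ^ 2 := by
      have := sq_nonneg (|t| - 1)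
      rw [← sq_abs t]
      nlinarith
    nlinarith
  have h2 := abs_le.1 hbt
  rw [eqv_apply]
  refine ⟨?_, ?_, ?_, ?_⟩
  · show x₀ ≤ q 0
    linarith
  · show q 0 ≤ x₀ + l
    linarith
  · show y₀ + t * (q 0 - x₀) ≤ q 1
    rw [hq0, hq1]
    nlinarith
  · show q 1 ≤ y₀ + t * (q 0 - x₀) + w
    rw [hq0, hq1]
    nlinarith

theorem MissedIn.mono {N A B : ℝ} (h : A ≤ B) {S : Set (EuclideanSpace ℝ (Fin 2))}
    (hS : MissedIn N B S) : MissedIn N A S := by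
  intro a b hab hba
  obtain ⟨x, hx, h1⟩ := hS a b hab hba
  refine ⟨x, hx, fun t ht => ?_⟩
  obtain ⟨p, L, W, g1, g2, g3, g4⟩ := h1 t ht
  exact ⟨p, L, W, g1, g2, h.trans g3, g4⟩

theorem window_of_not_missed {M A : ℝ} (hM : 0 < M) {S : Set (EuclideanSpace ℝ (Fin 2))}
    (h : ¬ MissedIn M A S) :
    ∃ a b : ℝ, a < b ∧ b ≤ a + 1 ∧ Window (1 / M) M A a b (eqv '' S) := by
  unfold MissedIn at h
  push Not at h
  obtain ⟨a, b, hab, hba, h1⟩ := h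
  refine ⟨a, b, hab, hba, fun x hx => ?_⟩
  obtain ⟨t, ht, h2⟩ := h1 x hx
  refine ⟨t, ?_, fun x₀ y₀ l w hw hwl hlw hD1 hDN => ?_⟩
  · rw [div_mul_eq_mul_div, one_mul, le_div_iff₀ hM]
    linarith
  · refine hit_par (D := b - a) (N := M) (A := A) (by linarith) ?_ hw hwl hlw hD1 hDN
    intro p L W g1 g2 g3 g4 g5
    exact Set.not_disjoint_iff_nonempty_inter.1 (h2 p L W g1 g2 g3 g4 g5)

theorem exists_danzer {c A : ℝ} (h : ∀ N : ℝ, 0 < N →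
      ∃ S : Set (EuclideanSpace ℝ (Fin 2)), Sparse c S ∧ ¬ MissedIn N A S) :
    ∃ S' : Set (EuclideanSpace ℝ (Fin 2)), BoundedDensity S' ∧ ∃ A' : ℝ,
      ∀ K : Set (EuclideanSpace ℝ (Fin 2)), Convex ℝ K → Bornology.IsBounded K →
        ENNReal.ofReal A' ≤ volume K → ¬ Disjoint K S' := by
  set A₁ := max A 0 with hA₁
  have hA0 : 0 ≤ A₁ := le_max_right _ _
  set c₁ := 4 * max c 0 with hc₁
  have hc0 : 0 ≤ c₁ := by positivity
  have hren : ∀ N : ℕ, ∃ T : Set (ℝ × ℝ),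
      (∀ r : ℝ, 1 ≤ r → r ≤ N → (T ∩ closedBall 0 r).Finite ∧
        ((T ∩ closedBall 0 r).ncard : ℝ) ≤ (64 * c₁ + 1) * r ^ 2) ∧
      ∀ x₀ y₀ σ l w : ℝ, |σ| ≤ 2 → 0 < w → w ≤ 2 * l → l ≤ N → 4 * A₁ + 1 ≤ l * w →
        (Par x₀ y₀ σ l w ∩ T).Nonempty := by
    intro N
    have hM : (0 : ℝ) < 16 * (N + 1) ^ 2 := by positivity
    obtain ⟨S, hS, hm⟩ := h (16 * (N + 1) ^ 2) hM
    obtain ⟨a, b, hab, hba, hwin⟩ := window_of_not_missed (A := A₁) hM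
      (fun hp => hm (hp.mono (le_max_left _ _)))
    exact renorm hc0 hA0 N (sq_of_sparse (hS.mono (le_max_left _ _))) hab hba hwin
  choose T hT1 hT2 using hren
  obtain ⟨S', hS1, hS2⟩ := exists_limit (64 * c₁ + 1) T hT1
  refine ⟨eqv ⁻¹' (S' ∪ Prod.swap ⁻¹' S'), bounded_of_sqDensity hS1, 256 * (4 * A₁ + 1), ?_⟩
  intro K hK hKb hvol hdis
  obtain ⟨x₀, y₀, σ, l, w, hσ, hw, hwl, hlw, hsub⟩ := exists_par (convex_preimage_symm hK)
    (bounded_preimage_symm hKb) (B := 256 * (4 * A₁ + 1)) (by positivity)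
    (by rw [volume_preimage_symm]; exact hvol)
  have hlw' : 4 * A₁ + 1 ≤ l * w := by linarith
  obtain ⟨z, hzS, hzP⟩ := hS2 (Par x₀ y₀ σ l w) (isCompact_par _ _ _ _ _) (by
    obtain ⟨N₀, hN₀⟩ := exists_nat_ge l
    refine eventually_atTop.2 ⟨N₀, fun N hN => ?_⟩
    obtain ⟨q, hq1, hq2⟩ := hT2 N x₀ y₀ σ l w hσ hw hwl
      (hN₀.trans (by exact_mod_cast hN)) hlw'
    exact ⟨q, hq2, hq1⟩)
  rcases hsub with hsub | hsub
  · refine Set.disjoint_left.1 hdis (hsub hzP) ?_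
    show eqv (eqv.symm z) ∈ S' ∪ Prod.swap ⁻¹' S'
    rw [eqv.apply_symm_apply]
    exact Or.inl hzS
  · have hzK : eqv.symm z.swap ∈ K := hsub hzP
    refine Set.disjoint_left.1 hdis hzK ?_
    show eqv (eqv.symm z.swap) ∈ S' ∪ Prod.swap ⁻¹' S'
    rw [eqv.apply_symm_apply]
    refine Or.inr ?_
    show z.swap.swap ∈ S'
    rw [Prod.swap_swap]
    exact hzS

end Pool.Agent.H50Dz
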