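import Mathlib

/-!
Definitions for the zero-one law for directions in Danzer's problem.
-/

open MeasureTheory

namespace Pool.Agent.H50Dz

/-- `S` has at most `c r ^ 2` points in the disk of radius `r` about the origin, for all `r ≥ 1` -/
def BoundedDensity (S : Set (EuclideanSpace ℝ (Fin 2))) : Prop :=
  ∃ c : ℝ, ∀ r : ℝ, 1 ≤ r →
    (S ∩ Metric.closedBall (0 : EuclideanSpace ℝ (Fin 2)) r).Finite ∧
    ((S ∩ Metric.closedBall (0 : EuclideanSpace ℝ (Fin 2)) r).ncard : ℝ) ≤ c * r ^ 2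

/-- the closed rectangle with corner `p` and side vectors `L (1, t)` and `W (-t, 1)` -/
def Rect (p : EuclideanSpace ℝ (Fin 2)) (t L W : ℝ) : Set (EuclideanSpace ℝ (Fin 2)) :=
  {q | ∃ a b : ℝ, 0 ≤ a ∧ a ≤ L ∧ 0 ≤ b ∧ b ≤ W ∧
    q 0 = p 0 + a - b * t ∧ q 1 = p 1 + a * t + b}

/-- on some disks of arbitrarily large radius `r`, `S` has at most `c r ^ 2` points -/
def Sparse (c : ℝ) (S : Set (EuclideanSpace ℝ (Fin 2))) : Prop :=
  ∀ R : ℝ, ∃ r : ℝ, R ≤ r ∧ ∃ x : EuclideanSpace ℝ (Fin 2),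
    (S ∩ Metric.closedBall x r).Finite ∧ ((S ∩ Metric.closedBall x r).ncard : ℝ) ≤ c * r ^ 2

/-- every interval `[a, b]` of slopes with `b - a ≤ 1` contains a point `x` such that, for every
`t` with `|x - t| ≤ (b - a) / N`, some rectangle of area at least `A` with long side `L (1, t)`,
`1 ≤ (b - a) L ^ 2 ≤ N`, does not meet `S` -/
def MissedIn (N A : ℝ) (S : Set (EuclideanSpace ℝ (Fin 2))) : Prop :=
  ∀ a b : ℝ, a < b → b ≤ a + 1 → ∃ x ∈ Set.Icc a b, ∀ t : ℝ, N * |x - t| ≤ b - a →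
    ∃ (p : EuclideanSpace ℝ (Fin 2)) (L W : ℝ), 0 < W ∧ W ≤ L ∧ A ≤ (1 + t ^ 2) * L * W ∧
      1 ≤ (b - a) * L ^ 2 ∧ (b - a) * L ^ 2 ≤ N ∧ Disjoint (Rect p t L W) S

/-- the slopes `t` such that every rectangle of area at least `A` whose long side has slope `t`
meets `S` -/
def GoodSlopes (S : Set (EuclideanSpace ℝ (Fin 2))) (A : ℝ) : Set ℝ :=
  {t | ∀ (p : EuclideanSpace ℝ (Fin 2)) (L W : ℝ), 0 < W → W ≤ L →
    A ≤ (1 + t ^ 2) * L * W → (Rect p t L W ∩ S).Nonempty}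

/-- for some `κ > 0`, every interval `[a, b]` with `b - a ≤ 1` contains a point at distance at
least `κ (b - a)` from all points of `Θ` -/
def UniformlyPorous (Θ : Set ℝ) : Prop :=
  ∃ κ : ℝ, 0 < κ ∧ ∀ a b : ℝ, a < b → b ≤ a + 1 →
    ∃ x ∈ Set.Icc a b, ∀ θ ∈ Θ, κ * (b - a) ≤ |x - θ|

/-- a parallelogram with two vertical sides: `x₀ ≤ x ≤ x₀ + l` and
`0 ≤ y - y₀ - σ (x - x₀) ≤ w` -/
def Par (x₀ y₀ σ l w : ℝ) : Set (ℝ × ℝ) :=
  {q | x₀ ≤ q.1 ∧ q.1 ≤ x₀ + l ∧ y₀ + σ * (q.1 - x₀) ≤ q.2 ∧ q.2 ≤ y₀ + σ * (q.1 - x₀) + w}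

end Pool.Agent.H50Dz
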