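import Pool.Agent.H50Dz.Defs

/-!
A uniformly porous set of reals is Lebesgue null and has empty interior.

Paper proof. Null: the density theorem `Besicovitch.ae_tendsto_measure_inter_div` (any set, not
necessarily measurable): for almost all `x ∈ Θ`, the quotient of the measures of
`Θ ∩ closedBall x r` and `closedBall x r` tends to `1` as `r → 0+`. With `[a, b] = [x - r, x + r]`
(`2 r ≤ 1`), there is `z ∈ [a, b]` at distance at least `2 κ r` from `Θ` (we may take `κ ≤ 1/2`),
so an interval of length `2 κ r` in `[a, b]` (one side of `z`) misses `Θ`, and the quotient is at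
most `1 - κ`. Interior: if `(a, b) ⊆ Θ` take a closed subinterval of length at most `1`.
-/

open MeasureTheory

namespace Pool.Agent.H50Dz

theorem UniformlyPorous.volume_eq_zero {Θ : Set ℝ} (h : UniformlyPorous Θ) :
    volume Θ = 0 := by
  obtain ⟨κ₀, hκ₀, hpor⟩ := h
  set κ : ℝ := min κ₀ (1 / 2) with hκdef
  have hκ : 0 < κ := lt_min hκ₀ (by norm_num)
  have hκ2 : κ ≤ 1 / 2 := min_le_right _ _
  have hκ1 : κ ≤ κ₀ := min_le_left _ _
  by_contra hne
  have hd := Besicovitch.ae_tendsto_measure_inter_div (volume : Measure ℝ) Θ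
  have hNB : (ae ((volume : Measure ℝ).restrict Θ)).NeBot := by
    rw [ae_neBot]
    intro h0
    rw [Measure.restrict_eq_zero] at h0
    exact hne h0
  obtain ⟨x, hx⟩ := hd.exists
  have hbound : ∀ᶠ r in nhdsWithin (0 : ℝ) (Set.Ioi 0),
      volume (Θ ∩ Metric.closedBall x r) / volume (Metric.closedBall x r) ≤
        ENNReal.ofReal (1 - κ) := by
    have h1 : ∀ᶠ r in nhdsWithin (0 : ℝ) (Set.Ioi 0), r ∈ Set.Ioo (0 : ℝ) (1 / 2) :=
      Ioo_mem_nhdsGT (by norm_num)
    filter_upwards [h1] with r hr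
    obtain ⟨hr0, hr1⟩ := hr
    obtain ⟨z, ⟨hz1, hz2⟩, hz⟩ := hpor (x - r) (x + r) (by linarith) (by linarith)
    have hz' : ∀ θ ∈ Θ, 2 * κ * r ≤ |z - θ| := by
      intro θ hθ
      have h2 := hz θ hθ
      have h3 : κ * (2 * r) ≤ κ₀ * (2 * r) := mul_le_mul_of_nonneg_right hκ1 (by linarith)
      nlinarith
    have hkr : 2 * κ * r ≤ r := by nlinarith
    have hkr0 : 0 < 2 * κ * r := by positivity
    -- the gap
    obtain ⟨c, hc1, hc2, hc3⟩ : ∃ c : ℝ, x - r ≤ c ∧ c + 2 * κ * r ≤ x + r ∧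
        Disjoint Θ (Set.Ioo c (c + 2 * κ * r)) := by
      rcases le_total z x with hzx | hzx
      · refine ⟨z, hz1, by linarith, ?_⟩
        rw [Set.disjoint_left]
        rintro θ hθ ⟨h2, h3⟩
        have := hz' θ hθ
        rw [abs_sub_comm, abs_of_pos (by linarith)] at this
        linarith
      · refine ⟨z - 2 * κ * r, by linarith, by linarith, ?_⟩
        rw [Set.disjoint_left]
        rintro θ hθ ⟨h2, h3⟩
        have := hz' θ hθ
        rw [abs_of_pos (by linarith)] at this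
        linarith
    rw [Real.closedBall_eq_Icc]
    have hsub : Θ ∩ Set.Icc (x - r) (x + r) ⊆
        Set.Icc (x - r) (x + r) \ Set.Ioo c (c + 2 * κ * r) := by
      rintro θ ⟨hθ, hθ2⟩
      exact ⟨hθ2, fun h2 => Set.disjoint_left.1 hc3 hθ h2⟩
    have hsub2 : Set.Ioo c (c + 2 * κ * r) ⊆ Set.Icc (x - r) (x + r) := by
      rintro y ⟨h2, h3⟩
      exact ⟨by linarith, by linarith⟩
    have hvol : volume (Set.Icc (x - r) (x + r) \ Set.Ioo c (c + 2 * κ * r)) =
        ENNReal.ofReal (2 * r) - ENNReal.ofReal (2 * κ * r) := by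
      rw [measure_diff hsub2 measurableSet_Ioo.nullMeasurableSet (by
        rw [Real.volume_Ioo]; exact ENNReal.ofReal_ne_top), Real.volume_Icc, Real.volume_Ioo]
      congr 2 <;> ring
    have hvol2 : volume (Set.Icc (x - r) (x + r)) = ENNReal.ofReal (2 * r) := by
      rw [Real.volume_Icc]
      congr 1
      ring
    rw [hvol2]
    apply ENNReal.div_le_of_le_mul
    refine (measure_mono hsub).trans ?_
    rw [hvol, ← ENNReal.ofReal_mul (by linarith), ← ENNReal.ofReal_sub _ hkr0.le]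
    apply ENNReal.ofReal_le_ofReal
    nlinarith
  have hlim : (1 : ENNReal) ≤ ENNReal.ofReal (1 - κ) := le_of_tendsto hx hbound
  have h2 : ENNReal.ofReal (1 - κ) < 1 := by
    rw [← ENNReal.ofReal_one]
    apply (ENNReal.ofReal_lt_ofReal_iff (by norm_num)).2
    linarith
  exact absurd hlim (not_le.2 h2)

theorem UniformlyPorous.interior_eq {Θ : Set ℝ} (h : UniformlyPorous Θ) :
    interior Θ = ∅ := by
  obtain ⟨κ, hκ, hpor⟩ := h
  by_contra hne
  obtain ⟨x, hx⟩ := Set.nonempty_iff_ne_empty.2 hne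
  rw [mem_interior_iff_mem_nhds, Metric.mem_nhds_iff] at hx
  obtain ⟨ε, hε, hball⟩ := hx
  set δ : ℝ := min (ε / 2) 1 with hδ
  have hδ0 : 0 < δ := lt_min (by linarith) one_pos
  have hδ1 : δ ≤ ε / 2 := min_le_left _ _
  have hδ2 : δ ≤ 1 := min_le_right _ _
  obtain ⟨z, ⟨hz1, hz2⟩, hz⟩ := hpor x (x + δ) (by linarith) (by linarith)
  have hzΘ : z ∈ Θ := by
    apply hball
    rw [Metric.mem_ball, Real.dist_eq, abs_lt]
    constructor <;> linarith
  have h1 := hz z hzΘ
  rw [sub_self, abs_zero] at h1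
  have h2 : 0 < κ * (x + δ - x) := by
    apply mul_pos hκ
    linarith
  linarith

end Pool.Agent.H50Dz
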