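import Pool.Agent.H50Dz.Transfer

/-!
The rectangle `Rect p t L W` is convex, bounded and has area `(1 + t²) L W`.

Paper proof. It is the image of `[0, L] × [0, W]` under the affine map
`(a, b) ↦ p + (a - b t, a t + b)` with determinant `1 + t²` (use
`MeasureTheory.Measure.addHaar_image_linearMap` and the volume preserving maps between
`EuclideanSpace ℝ (Fin 2)`, `Fin 2 → ℝ` and `ℝ × ℝ`).
-/

open MeasureTheory

namespace Pool.Agent.H50Dz

theorem rect_convex (p : EuclideanSpace ℝ (Fin 2)) (t L W : ℝ) : Convex ℝ (Rect p t L W) := by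
  rintro x ⟨a, b, ha0, haL, hb0, hbW, h0, h1⟩ y ⟨a', b', ha0', haL', hb0', hbW', h0', h1'⟩ s u
    hs hu hsu
  refine ⟨s * a + u * a', s * b + u * b', by positivity, ?_, by positivity, ?_, ?_, ?_⟩
  · calc s * a + u * a' ≤ s * L + u * L := by
          have := mul_le_mul_of_nonneg_left haL hs
          have := mul_le_mul_of_nonneg_left haL' hu
          linarith
      _ = L := by rw [← add_mul, hsu, one_mul]
  · calc s * b + u * b' ≤ s * W + u * W := by
          have := mul_le_mul_of_nonneg_left hbW hs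
          have := mul_le_mul_of_nonneg_left hbW' hu
          linarith
      _ = W := by rw [← add_mul, hsu, one_mul]
  · have e : (s • x + u • y) 0 = s * x 0 + u * y 0 := rfl
    rw [e, h0, h0']
    linear_combination p 0 * hsu
  · have e : (s • x + u • y) 1 = s * x 1 + u * y 1 := rfl
    rw [e, h1, h1']
    linear_combination p 1 * hsu

theorem rect_bounded (p : EuclideanSpace ℝ (Fin 2)) (t L W : ℝ) :
    Bornology.IsBounded (Rect p t L W) := by
  rw [Metric.isBounded_iff_subset_closedBall (0 : EuclideanSpace ℝ (Fin 2))]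
  refine ⟨2 * (|p 0| + |p 1| + (1 + |t|) * (|L| + |W|)), ?_⟩
  rintro q ⟨a, b, ha0, haL, hb0, hbW, h0, h1⟩
  rw [mem_closedBall_zero_iff]
  refine (norm_le_eqv q).trans ?_
  refine mul_le_mul_of_nonneg_left ?_ (by norm_num)
  have haL' : |a| ≤ |L| := by rw [abs_of_nonneg ha0]; exact haL.trans (le_abs_self L)
  have hbW' : |b| ≤ |W| := by rw [abs_of_nonneg hb0]; exact hbW.trans (le_abs_self W)
  have hat : |a * t| ≤ |t| * |L| := by
    rw [abs_mul, mul_comm]; exact mul_le_mul_of_nonneg_left haL' (abs_nonneg t)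
  have hbt : |b * t| ≤ |t| * |W| := by
    rw [abs_mul, mul_comm]; exact mul_le_mul_of_nonneg_left hbW' (abs_nonneg t)
  have hp0 := abs_nonneg (p 0)
  have hp1 := abs_nonneg (p 1)
  have htL : 0 ≤ |t| * |L| := by positivity
  have htW : 0 ≤ |t| * |W| := by positivity
  have hL0 := abs_nonneg L
  have hW0 := abs_nonneg W
  rw [eqv_apply, Prod.norm_def]
  refine max_le ?_ ?_
  · rw [Real.norm_eq_abs, h0]
    have h2 : |p 0 + a - b * t| ≤ |p 0 + a| + |b * t| := abs_sub _ _
    have h3 : |p 0 + a| ≤ |p 0| + |a| := abs_add_le _ _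
    nlinarith
  · rw [Real.norm_eq_abs, h1]
    have h2 : |p 1 + a * t + b| ≤ |p 1 + a * t| + |b| := abs_add_le _ _
    have h3 : |p 1 + a * t| ≤ |p 1| + |a * t| := abs_add_le _ _
    nlinarith

/-- the linear map `(a, b) ↦ (a - b t, a t + b)` -/
noncomputable def rlin (t : ℝ) (q : ℝ × ℝ) : ℝ × ℝ := (q.1 - q.2 * t, q.1 * t + q.2)

theorem volume_rlin (t : ℝ) (s : Set (ℝ × ℝ)) :
    volume (rlin t '' s) = ENNReal.ofReal (1 + t ^ 2) * volume s := by
  have h := Measure.addHaar_image_linearMap (volume : Measure (ℝ × ℝ))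
    (Matrix.toLin (Module.Basis.finTwoProd ℝ) (Module.Basis.finTwoProd ℝ) !![1, -t; t, 1]) s
  rw [LinearMap.det_toLin, Matrix.det_fin_two_of] at h
  have h1 : (1 : ℝ) * 1 - -t * t = 1 + t ^ 2 := by ring
  rw [h1, abs_of_pos (by positivity), Matrix.toLin_finTwoProd] at h
  rw [← h]
  congr 1
  refine Set.image_congr fun q _ => ?_
  simp only [rlin, LinearMap.prod_apply, Function.prod]
  ext
  · simp only [LinearMap.add_apply, LinearMap.smul_apply, LinearMap.fst_apply,
      LinearMap.snd_apply, smul_eq_mul]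
    ring
  · simp only [LinearMap.add_apply, LinearMap.smul_apply, LinearMap.fst_apply,
      LinearMap.snd_apply, smul_eq_mul]
    ring

theorem rect_eq (p : EuclideanSpace ℝ (Fin 2)) (t L W : ℝ) :
    Rect p t L W = eqv ⁻¹' ((fun h : ℝ × ℝ => h + (-(p 0), -(p 1))) ⁻¹'
      (rlin t '' (Set.Icc 0 L ×ˢ Set.Icc 0 W))) := by
  ext q
  simp only [Set.mem_preimage, eqv_apply]
  constructor
  · rintro ⟨a, b, ha0, haL, hb0, hbW, h0, h1⟩
    refine ⟨(a, b), ⟨⟨ha0, haL⟩, ⟨hb0, hbW⟩⟩, ?_⟩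
    simp only [rlin, Prod.mk_add_mk, Prod.mk.injEq]
    constructor
    · rw [h0]; ring
    · rw [h1]; ring
  · rintro ⟨⟨a, b⟩, ⟨⟨ha0, haL⟩, ⟨hb0, hbW⟩⟩, h⟩
    simp only [rlin, Prod.mk_add_mk, Prod.mk.injEq] at h
    refine ⟨a, b, ha0, haL, hb0, hbW, ?_, ?_⟩
    · linarith [h.1]
    · linarith [h.2]

theorem rect_volume (p : EuclideanSpace ℝ (Fin 2)) (t : ℝ) {L W : ℝ} (hL : 0 ≤ L) (hW : 0 ≤ W) :
    volume (Rect p t L W) = ENNReal.ofReal ((1 + t ^ 2) * L * W) := by
  rw [rect_eq, volume_preimage, measure_preimage_add_right, volume_rlin,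
    Measure.volume_eq_prod, Measure.prod_prod, Real.volume_Icc, Real.volume_Icc, sub_zero, sub_zero,
    ← ENNReal.ofReal_mul hL, ← ENNReal.ofReal_mul (by positivity)]
  congr 1
  ring

end Pool.Agent.H50Dz
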