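import Pool.Agent.H50Dz.Danzer
import Pool.Agent.H50Dz.Porous
import Pool.Agent.H50Dz.RectVol

/-!
The zero-one law: assembly.
-/

open MeasureTheory Metric Set

namespace Pool.Agent.H50Dz

/-- a set meeting all bounded convex sets of area at least `A` meets all rectangles of area at
least `A` -/
theorem goodSlopes_eq_univ {S : Set (EuclideanSpace ℝ (Fin 2))} {A : ℝ}
    (h : ∀ K : Set (EuclideanSpace ℝ (Fin 2)), Convex ℝ K → Bornology.IsBounded K →
      ENNReal.ofReal A ≤ volume K → ¬ Disjoint K S) : GoodSlopes S A = univ := by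
  refine eq_univ_of_forall fun t p L W hW hWL hA => ?_
  have h1 := h (Rect p t L W) (rect_convex p t L W) (rect_bounded p t L W)
    (by
      rw [rect_volume p t (by linarith) hW.le]
      exact ENNReal.ofReal_le_ofReal hA)
  exact Set.not_disjoint_iff_nonempty_inter.1 h1

theorem MissedIn.uniformlyPorous {N A : ℝ} (hN : 0 < N) {S : Set (EuclideanSpace ℝ (Fin 2))}
    (h : MissedIn N A S) : UniformlyPorous (GoodSlopes S A) := by
  refine ⟨1 / N, by positivity, fun a b hab hba => ?_⟩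
  obtain ⟨x, hx, h1⟩ := h a b hab hba
  refine ⟨x, hx, fun t ht => ?_⟩
  by_contra hcon
  push Not at hcon
  obtain ⟨p, L, W, g1, g2, g3, g4, g5, g6⟩ := h1 t (by
    rw [div_mul_eq_mul_div, one_mul, lt_div_iff₀ hN] at hcon
    linarith)
  exact (Set.not_disjoint_iff_nonempty_inter.2 (ht p L W g1 g2 g3)) g6

theorem UniformlyPorous.mono {Θ Θ' : Set ℝ} (h : UniformlyPorous Θ') (hsub : Θ ⊆ Θ') :
    UniformlyPorous Θ := by
  obtain ⟨κ, h0, h1⟩ := h
  refine ⟨κ, h0, fun a b hab hba => ?_⟩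
  obtain ⟨x, hx, h2⟩ := h1 a b hab hba
  exact ⟨x, hx, fun θ hθ => h2 θ (hsub hθ)⟩

theorem zero_one {T : Set ℝ} (hT : ¬ UniformlyPorous T) : List.TFAE [
    ∀ S : Set (EuclideanSpace ℝ (Fin 2)), BoundedDensity S → ∀ A : ℝ,
      ∃ K : Set (EuclideanSpace ℝ (Fin 2)), Convex ℝ K ∧ Bornology.IsBounded K ∧
        ENNReal.ofReal A ≤ volume K ∧ Disjoint K S,
    ∀ c A : ℝ, ∃ N : ℝ, 0 < N ∧ ∀ S : Set (EuclideanSpace ℝ (Fin 2)), Sparse c S →
      MissedIn N A S,
    ∀ S : Set (EuclideanSpace ℝ (Fin 2)), BoundedDensity S → ∀ A : ℝ,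
      volume (GoodSlopes S A) = 0,
    ∀ S : Set (EuclideanSpace ℝ (Fin 2)), BoundedDensity S → ∀ A : ℝ,
      interior (GoodSlopes S A) = ∅,
    ∀ S : Set (EuclideanSpace ℝ (Fin 2)), BoundedDensity S → ∀ A : ℝ,
      ∃ t ∈ T, ∃ (p : EuclideanSpace ℝ (Fin 2)) (L W : ℝ), 0 < W ∧ W ≤ L ∧
        A ≤ (1 + t ^ 2) * L * W ∧ Disjoint (Rect p t L W) S] := by
  have hpor : (∀ c A : ℝ, ∃ N : ℝ, 0 < N ∧ ∀ S : Set (EuclideanSpace ℝ (Fin 2)), Sparse c S →
      MissedIn N A S) → ∀ S : Set (EuclideanSpace ℝ (Fin 2)), BoundedDensity S → ∀ A : ℝ,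
        UniformlyPorous (GoodSlopes S A) := by
    intro h S hS A
    obtain ⟨c, hc⟩ := hS.sparse
    obtain ⟨N, hN, h1⟩ := h c A
    exact (h1 S hc).uniformlyPorous hN
  tfae_have 1 → 2 := by
    intro h c A
    by_contra hcon
    push Not at hcon
    obtain ⟨S', hS', A', hK⟩ := exists_danzer hcon
    obtain ⟨K, h1, h2, h3, h4⟩ := h S' hS' A'
    exact hK K h1 h2 h3 h4
  tfae_have 2 → 3 := fun h S hS A => (hpor h S hS A).volume_eq_zero
  tfae_have 2 → 4 := fun h S hS A => (hpor h S hS A).interior_eq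
  tfae_have 2 → 5 := by
    intro h S hS A
    by_contra hcon
    push Not at hcon
    refine hT ((hpor h S hS A).mono fun t ht p L W g1 g2 g3 => ?_)
    exact Set.not_disjoint_iff_nonempty_inter.1 (hcon t ht p L W g1 g2 g3)
  tfae_have 3 → 1 := by
    intro h S hS A
    by_contra hcon
    push Not at hcon
    have h1 := h S hS A
    rw [goodSlopes_eq_univ hcon, Real.volume_univ] at h1
    exact ENNReal.top_ne_zero h1
  tfae_have 4 → 1 := by
    intro h S hS A
    by_contra hcon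
    push Not at hcon
    have h1 := h S hS A
    rw [goodSlopes_eq_univ hcon, interior_univ] at h1
    exact univ_nonempty.ne_empty h1
  tfae_have 5 → 1 := by
    intro h S hS A
    obtain ⟨t, _, p, L, W, g1, g2, g3, g4⟩ := h S hS A
    refine ⟨Rect p t L W, rect_convex p t L W, rect_bounded p t L W, ?_, g4⟩
    rw [rect_volume p t (by linarith) g1.le]
    exact ENNReal.ofReal_le_ofReal g3
  tfae_finish

end Pool.Agent.H50Dz
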