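import Pool.Agent.H50Dz.Defs

/-!
The set `{1/n : n ≥ 1}` is not uniformly porous: in the windows `[0, 1/k]` its gaps are at most
`1/(k (k + 1))`.
-/

namespace Pool.Agent.H50Dz

/-- the set `{1/n : n ≥ 1}` -/
def recips : Set ℝ := {t | ∃ n : ℕ, 1 ≤ n ∧ t = 1 / (n : ℝ)}

theorem not_porous_recips : ¬ UniformlyPorous recips := by
  rintro ⟨κ, hκ, h⟩
  obtain ⟨k, hk⟩ := exists_nat_gt (1 / κ)
  have hk0 : (0 : ℝ) < k := lt_trans (by positivity) hk
  have hk1 : (1 : ℝ) ≤ k := by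
    have : 0 < k := by exact_mod_cast hk0
    exact_mod_cast this
  have hkκ : 1 / (k : ℝ) < κ := by
    rw [div_lt_iff₀ hk0]
    rw [div_lt_iff₀ hκ] at hk
    linarith
  obtain ⟨x, ⟨hx0, hx1⟩, hx⟩ := h 0 (1 / (k : ℝ)) (by positivity) (by
    rw [zero_add, div_le_one hk0]
    exact hk1)
  rw [sub_zero] at hx
  have hκk : 0 < κ * (1 / (k : ℝ)) := by positivity
  rcases hx0.eq_or_lt with h0 | hpos
  · obtain ⟨n, hn⟩ := exists_nat_gt (1 / (κ * (1 / (k : ℝ))))
    have hn0 : (0 : ℝ) < n := lt_trans (by positivity) hn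
    have h1 := hx (1 / (n : ℝ)) ⟨n, by
      have : 0 < n := by exact_mod_cast hn0
      exact this, rfl⟩
    rw [← h0, zero_sub, abs_neg, abs_of_pos (by positivity)] at h1
    rw [div_lt_iff₀ hκk] at hn
    rw [le_div_iff₀ hn0] at h1
    linarith
  · have hfl := Nat.floor_le (show (0 : ℝ) ≤ 1 / x by positivity)
    have hfu := Nat.lt_floor_add_one (1 / x)
    have hkx : (k : ℝ) ≤ 1 / x := by
      rw [le_div_iff₀ hpos]
      rw [le_div_iff₀ hk0] at hx1
      linarith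
    have hkn : k ≤ ⌊1 / x⌋₊ := Nat.le_floor hkx
    obtain ⟨n, hn⟩ : ∃ n : ℕ, n = ⌊1 / x⌋₊ := ⟨_, rfl⟩
    rw [← hn] at hfl hfu hkn
    have hkn' : (k : ℝ) ≤ n := by exact_mod_cast hkn
    have hn0 : (0 : ℝ) < n := lt_of_lt_of_le hk0 hkn'
    have h1 := hx (1 / (n : ℝ)) ⟨n, by
      have : 0 < n := by exact_mod_cast hn0
      exact this, rfl⟩
    have h2 : x ≤ 1 / (n : ℝ) := by
      rw [le_div_iff₀ hn0]
      rw [le_div_iff₀ hpos] at hfl
      linarith
    have h3 : 1 / ((n : ℝ) + 1) < x := by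
      rw [div_lt_iff₀ (by positivity)]
      rw [div_lt_iff₀ hpos] at hfu
      linarith
    rw [abs_of_nonpos (by linarith)] at h1
    have h4 : 1 / (n : ℝ) - 1 / ((n : ℝ) + 1) = 1 / ((n : ℝ) * (n + 1)) := by
      field_simp
      ring
    have h5 : 1 / ((n : ℝ) * (n + 1)) ≤ 1 / ((k : ℝ) * k) := by
      apply one_div_le_one_div_of_le (by positivity)
      nlinarith
    have h6 : 1 / ((k : ℝ) * k) < κ * (1 / (k : ℝ)) := by
      have : 1 / ((k : ℝ) * k) = 1 / (k : ℝ) * (1 / (k : ℝ)) := by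
        field_simp
      rw [this]
      exact mul_lt_mul_of_pos_right hkκ (by positivity)
    linarith

end Pool.Agent.H50Dz
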