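import Pool.Agent.H50Dz.Base

/-!
Renormalisation: a short interval of slopes is spread over `[-2, 2]`.
-/

open MeasureTheory Metric Set

namespace Pool.Agent.H50Dz

/-- the points of `[a, b]` have close slopes `θ` such that `S` meets certain parallelograms -/
def Window (κ N' A a b : ℝ) (S : Set (ℝ × ℝ)) : Prop :=
  ∀ x ∈ Icc a b, ∃ θ : ℝ, |x - θ| ≤ κ * (b - a) ∧ ∀ x₀ y₀ l w : ℝ, 0 < w → 4 * w ≤ l →
    2 * A ≤ l * w → 2 ≤ (b - a) * l ^ 2 → (b - a) * l ^ 2 ≤ N' → (Par x₀ y₀ θ l w ∩ S).Nonempty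

theorem hits_sh {S : Set (ℝ × ℝ)} {A : ℝ} (hA : 0 ≤ A) {a b κ N' k : ℝ} (hba : b ≤ a + 1)
    (hk : 0 < k) (hk2 : k ^ 2 = (b - a) / 4) (hθ : Window κ N' A a b S)
    {x₀ y₀ σ l w : ℝ} (hσ : |σ| ≤ 2) (hw : 0 < w) (hwl : w ≤ 2 * l)
    (hκl : 16 * κ * l ≤ w) (hlw : 4 * A + 1 ≤ l * w) (hlN : 4 * l ^ 2 ≤ N') :
    (Par x₀ y₀ σ l w ∩ sh k ((a + b) / 2) '' S).Nonempty := by
  have hl : 0 < l := by linarith
  have hk2' : 0 < k ^ 2 := by positivity
  have hk4 : k ^ 2 ≤ 1 / 4 := by rw [hk2]; linarith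
  set m := (a + b) / 2 with hm
  obtain ⟨θ, hclose, hhit⟩ := hθ (m + k ^ 2 * σ) (by
    have h1 := abs_le.1 hσ
    constructor <;> nlinarith)
  -- the slope after renormalisation
  set σ' := (θ - m) / k ^ 2 with hσ'
  have hdiff : |σ' - σ| ≤ 4 * κ := by
    have h1 : σ' - σ = -(m + k ^ 2 * σ - θ) / k ^ 2 := by
      rw [hσ']; field_simp; ring
    rw [h1, abs_div, abs_neg, abs_of_pos hk2', div_le_iff₀ hk2']
    nlinarith
  have e4 : (b - a) * (l / k) ^ 2 = 4 * l ^ 2 := by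
    have : b - a = 4 * k ^ 2 := by rw [hk2]; ring
    rw [this]; field_simp
  obtain ⟨q, hq, hqS⟩ := hhit (x₀ / k) (k * (y₀ + w / 4) + m * x₀ / k) (l / k) (k * w / 2)
    (by positivity)
    (by
      rw [le_div_iff₀ hk]
      have : 4 * (k * w / 2) * k = 2 * (k ^ 2 * w) := by ring
      rw [this]
      nlinarith)
    (by
      have : l / k * (k * w / 2) = l * w / 2 := by field_simp
      rw [this]; linarith)
    (by rw [e4]; nlinarith) (by rw [e4]; exact hlN)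
  obtain ⟨h1, h2, h3, h4⟩ := hq
  refine ⟨sh k m q, ?_, mem_image_of_mem _ hqS⟩
  set u := k * q.1 - x₀ with hu
  have hu0 : 0 ≤ u := by
    rw [hu, sub_nonneg]
    have := (div_le_iff₀ hk).1 h1
    linarith
  have hul : u ≤ l := by
    have h5 : q.1 ≤ (x₀ + l) / k := by
      rw [add_div]; exact h2
    have := (le_div_iff₀ hk).1 h5
    rw [hu]; linarith
  have e1 : θ * (q.1 - x₀ / k) = m * (q.1 - x₀ / k) + k * (σ' * u) := by
    rw [hσ', hu]; field_simp; ring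
  have e2 : q.2 - m * q.1 = k * ((q.2 - m * q.1) / k) := by field_simp
  set Y := (q.2 - m * q.1) / k with hY
  have e3 : m * (q.1 - x₀ / k) = m * q.1 - m * x₀ / k := by ring
  have h5 : k * (y₀ + w / 4 + σ' * u) ≤ k * Y := by
    rw [← e2]
    rw [e1, e3] at h3
    linarith
  have h6 : k * Y ≤ k * (y₀ + w / 4 + σ' * u + w / 2) := by
    rw [← e2]
    rw [e1, e3] at h4
    linarith
  have h5' := le_of_mul_le_mul_left h5 hk
  have h6' := le_of_mul_le_mul_left h6 hk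
  have h7 : |(σ' - σ) * u| ≤ w / 4 := by
    rw [abs_mul, abs_of_nonneg hu0]
    have hκ0 : 0 ≤ κ := by
      have := abs_nonneg (σ' - σ)
      linarith
    calc |σ' - σ| * u ≤ 4 * κ * l := mul_le_mul hdiff hul hu0 (by linarith)
      _ ≤ w / 4 := by linarith
  have h8 := abs_le.1 h7
  refine ⟨?_, ?_, ?_, ?_⟩
  · show x₀ ≤ k * q.1
    linarith
  · show k * q.1 ≤ x₀ + l
    linarith
  · show y₀ + σ * u ≤ Y
    nlinarith
  · show Y ≤ y₀ + σ * u + w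
    nlinarith

theorem renorm {c A : ℝ} (hc : 0 ≤ c) (hA : 0 ≤ A) (N : ℕ) {S : Set (ℝ × ℝ)}
    (hS : ∀ R : ℝ, ∃ r : ℝ, R ≤ r ∧ ∃ z : ℝ × ℝ, (S ∩ closedBall z r).Finite ∧
      ((S ∩ closedBall z r).ncard : ℝ) ≤ c * r ^ 2)
    {a b : ℝ} (hab : a < b) (hba : b ≤ a + 1)
    (hθ : Window (1 / (16 * (N + 1) ^ 2)) (16 * (N + 1) ^ 2) A a b S) :
    ∃ T : Set (ℝ × ℝ),
      (∀ r : ℝ, 1 ≤ r → r ≤ N → (T ∩ closedBall 0 r).Finite ∧
        ((T ∩ closedBall 0 r).ncard : ℝ) ≤ (64 * c + 1) * r ^ 2) ∧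
      ∀ x₀ y₀ σ l w : ℝ, |σ| ≤ 2 → 0 < w → w ≤ 2 * l → l ≤ N → 4 * A + 1 ≤ l * w →
        (Par x₀ y₀ σ l w ∩ T).Nonempty := by
  set κ : ℝ := 1 / (16 * (N + 1) ^ 2) with hκ
  set k := Real.sqrt ((b - a) / 4) with hk
  have hk0 : 0 < k := Real.sqrt_pos.2 (by linarith)
  have hk2 : k ^ 2 = (b - a) / 4 := Real.sq_sqrt (by linarith)
  have hN0 : (0 : ℝ) ≤ N := Nat.cast_nonneg N
  obtain ⟨x, hx⟩ := exists_base hc hS hk0 ((a + b) / 2) (J := N + 1) (by linarith)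
  refine ⟨(fun q => q - x) '' (sh k ((a + b) / 2) '' S), fun r hr1 hrN => ?_, ?_⟩
  · have e : (fun q => q - x) '' (sh k ((a + b) / 2) '' S) ∩ closedBall 0 r =
        (fun q => q - x) '' (sh k ((a + b) / 2) '' S ∩ closedBall x r) := by
      ext z
      constructor
      · rintro ⟨⟨y, hy, rfl⟩, hz⟩
        refine ⟨y, ⟨hy, ?_⟩, rfl⟩
        simpa [mem_closedBall, dist_eq_norm] using hz
      · rintro ⟨y, ⟨hy, hz⟩, rfl⟩
        refine ⟨⟨y, hy, rfl⟩, ?_⟩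
        simpa [mem_closedBall, dist_eq_norm] using hz
    obtain ⟨h1, h2⟩ := hx r hr1 (by linarith)
    rw [e, ncard_image_of_injective _ (sub_left_injective)]
    exact ⟨h1.image _, h2⟩
  · intro x₀ y₀ σ l w hσ hw hwl hlN hlw
    have hl : 0 < l := by linarith
    have hκl : 16 * κ * l ≤ w := by
      have h1 : 1 ≤ l * w := by linarith
      have h2 : 16 * κ * l = l / (N + 1) ^ 2 := by rw [hκ]; field_simp
      rw [h2, div_le_iff₀ (by positivity)]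
      have h3 : l * l ≤ l * w * (N + 1) ^ 2 := by
        calc l * l ≤ (N + 1) * (N + 1) := by nlinarith
          _ = 1 * (N + 1) ^ 2 := by ring
          _ ≤ l * w * (N + 1) ^ 2 := mul_le_mul_of_nonneg_right h1 (by positivity)
      have h4 : l * l ≤ l * (w * (N + 1) ^ 2) := by linarith
      exact le_of_mul_le_mul_left h4 hl
    obtain ⟨z, hz, hzS⟩ := hits_sh hA hba hk0 hk2 hθ (x₀ := x₀ + x.1) (y₀ := y₀ + x.2)
      hσ hw hwl hκl hlw (by nlinarith)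
    refine ⟨z - x, ?_, mem_image_of_mem _ hzS⟩
    obtain ⟨h1, h2, h3, h4⟩ := hz
    have e1 : (z - x).1 - x₀ = z.1 - (x₀ + x.1) := by
      rw [Prod.fst_sub]; ring
    refine ⟨?_, ?_, ?_, ?_⟩
    · rw [Prod.fst_sub]; linarith
    · rw [Prod.fst_sub]; linarith
    · rw [e1, Prod.snd_sub]; linarith
    · rw [e1, Prod.snd_sub]; linarith

end Pool.Agent.H50Dz
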